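import Pool.Agent.H343X.Z

/-!
# One of the nine numbers `ζ(11)`, `ζ(13)`, …, `ζ(27)` is irrational

The proof (see `Pool/Agent/H343X/`, `Pool/Agent/H343Z/` and `Pool/Agent/H336R2/HD/`) compares, for Hankel
determinants of linear forms in `1, ζ(11), ζ(13), …, ζ(27)` (eighth derivatives of a well-poised rational
function with poles of order twenty), an archimedean bound on a slanted contour, with a two-part basis
whose second part vanishes at the first summation points, with `p`-adic bounds for all primes `p`; if the
nine numbers were rational, the product formula would fail for large prime parameters, where the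
determinant does not vanish.

Credits (helpers of this team): design, definitions, statements and certificate data helper343 (libraries
of helpers 336 and 337); lead, conversion and hand-in helper337; modules by helpers 21, 35, 156, 199, 200, 267, 292, 369, 415,
470, 528, 546, 662, 724, 760, 802, 805, 818, 827, 847, 879, 898, 942, 955 and 978.
-/

namespace Pool.Agent.Results.MP_4f096c_nt.OddZeta11To27

/-- At least one of `ζ(11)`, `ζ(13)`, …, `ζ(27)` is irrational, where `ζ(j) = ∑ 1/(n+1)^j`. -/
theorem result : ∃ j : ℕ, Odd j ∧ 11 ≤ j ∧ j ≤ 27 ∧ Irrational (∑' n : ℕ, 1 / ((n : ℝ) + 1) ^ j) := by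
  obtain ⟨i, hi, h⟩ := Pool.Agent.H343X.Z_main
  refine ⟨i, ?_, ?_, ?_, h⟩
  · simp only [Finset.mem_insert, Finset.mem_singleton] at hi
    rcases hi with rfl | rfl | rfl | rfl | rfl | rfl | rfl | rfl | rfl <;> decide
  · simp only [Finset.mem_insert, Finset.mem_singleton] at hi
    omega
  · simp only [Finset.mem_insert, Finset.mem_singleton] at hi
    omega

end Pool.Agent.Results.MP_4f096c_nt.OddZeta11To27
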